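import Pool.Agent.W_MP_3feab3_lc.Final

/-!
Vertex deletion into components of small domination number is fixed-parameter tractable.

`Solvable d G k` (in `Pool.Agent.W_MP_3feab3_lc.Defs`) says that at most `k` vertices of `G` can be
deleted such that every connected component of the rest has domination number at most `d`.
`code n E k` is an explicit word over `Bool` for the graph on `Fin n` with edge list `E` and the
number `k` (numbers in unary).
-/

set_option autoImplicit false

namespace Pool.Agent.Results.MP_3feab3_lc.SmallDominatorFPT

open Turing Pool.Agent.W_MP_3feab3_lc

/-- For every fixed `d` there are a Turing machine, a computable function `f` and an exponent `c`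
such that for every graph `G` on `n` vertices given by a list of `m` edges, and every `k`, the
machine started on the code of `(G, k)` decides within `f(k) (n + m + 1)^c` steps whether some set
of at most `k` vertices can be deleted such that each connected component of the remaining graph
has domination number at most `d`. -/
theorem result (d : ℕ) :
    ∃ (tm : FinTM2) (ein : tm.Γ tm.k₀ ≃ Bool) (eout : tm.Γ tm.k₁ ≃ Bool) (f : ℕ → ℕ) (c : ℕ),
      Computable f ∧ ∀ (n : ℕ) (E : List (Fin n × Fin n)) (k : ℕ), ∃ b : Bool,
        (b = true ↔ Solvable d (SimpleGraph.fromRel (fun u v : Fin n => (u, v) ∈ E)) k) ∧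
        Nonempty (TM2OutputsInTime tm ((code n E k).map ein.symm) (some [eout.symm b])
          (f k * (n + E.length + 1) ^ c)) :=
  final d

end Pool.Agent.Results.MP_3feab3_lc.SmallDominatorFPT
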